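import Pool.Agent.Run7.h496.PS.Traj
import Pool.Agent.Run7.h469.LF.Rec

/-! Linear forms in two variables, recurrence sequences of order two, and sparse exceptional sets. -/

set_option autoImplicit false

namespace Pool.Agent.Run7.h496.PS

open Finset Topology
open Filter hiding seq
open _root_.Run7.h469.LF (seq seq_lin seq_one_zero coprime_coeff index_le)
open _root_.Run7.h469.CT (class_le)

theorem fiber (α β X n : ℕ) (hco : Nat.Coprime α β) (hβ : 1 ≤ β) :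
    ((Icc 1 X ×ˢ Icc 1 X).filter (fun z : ℕ × ℕ => α * z.1 + β * z.2 = n)).card ≤ X / β + 1 := by
  rcases ((Icc 1 X ×ˢ Icc 1 X).filter (fun z : ℕ × ℕ => α * z.1 + β * z.2 = n)).eq_empty_or_nonempty with h | h
  · rw [h]; simp
  obtain ⟨z0, hz0⟩ := h
  rw [mem_filter] at hz0
  refine le_trans ?_ (class_le X β (z0.1 % β))
  apply card_le_card_of_injOn (fun z => z.1)
  · intro z hz
    rw [mem_coe, mem_filter, mem_product] at hz
    rw [mem_coe, mem_filter]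
    refine ⟨hz.1.1, ?_⟩
    have h1 : α * z.1 + β * z.2 = α * z0.1 + β * z0.2 := by rw [hz.2, hz0.2]
    have h2 : α * z.1 ≡ α * z0.1 [MOD β] := by
      have h3 : α * z.1 + β * z.2 ≡ α * z0.1 + β * z0.2 [MOD β] := by rw [h1]
      have h4 : ∀ x y : ℕ, x + β * y ≡ x [MOD β] := fun x y => by
        unfold Nat.ModEq
        exact Nat.add_mul_mod_self_left x β y
      exact (h4 _ _).symm.trans (h3.trans (h4 _ _))
    have h5 : z.1 ≡ z0.1 [MOD β] := Nat.ModEq.cancel_left_of_coprime hco.symm h2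
    exact h5
  · intro z hz z' hz' h
    rw [mem_coe, mem_filter] at hz hz'
    simp only at h
    have h1 : α * z.1 + β * z.2 = α * z'.1 + β * z'.2 := by rw [hz.2, hz'.2]
    rw [h] at h1
    have h2 : β * z.2 = β * z'.2 := by omega
    exact Prod.ext h (Nat.eq_of_mul_eq_mul_left (by omega) h2)

theorem fiber' (α β X n : ℕ) (hco : Nat.Coprime α β) (hα : 1 ≤ α) :
    ((Icc 1 X ×ˢ Icc 1 X).filter (fun z : ℕ × ℕ => α * z.1 + β * z.2 = n)).card ≤ X / α + 1 := by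
  refine le_trans ?_ (fiber β α X n hco.symm hα)
  apply card_le_card_of_injOn Prod.swap
  · intro z hz
    rw [mem_coe, mem_filter, mem_product] at hz ⊢
    exact ⟨⟨hz.1.2, hz.1.1⟩, by rw [← hz.2]; simp only [Prod.fst_swap, Prod.snd_swap]; ring⟩
  · intro z _ z' _ h
    exact Prod.swap_injective h

open Classical in
theorem form {E : ℕ → Prop} {C θ : ℝ} (hC : 0 ≤ C) 
    (hE : ∀ y : ℝ, 0 ≤ y → (((Icc 1 ⌊y⌋₊).filter E).card : ℝ) ≤ C * y ^ θ)
    (α β X u M : ℕ) (w : ℤ) (hu : 1 ≤ u) (W Z : ℝ) (hw : |(w : ℝ)| ≤ W) (hZ : 0 ≤ Z) (Q : ℕ × ℕ → Prop)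
    (hfib : ∀ n, ((Icc 1 X ×ˢ Icc 1 X).filter (fun z : ℕ × ℕ => α * z.1 + β * z.2 = n)).card ≤ M)
    (hQ : ∀ z ∈ Icc 1 X ×ˢ Icc 1 X, Q z → ((α * z.1 + β * z.2 : ℕ) : ℝ) ≤ Z) :
    (((Icc 1 X ×ˢ Icc 1 X).filter (fun z : ℕ × ℕ => Q z ∧
      ∃ N : ℕ, 1 ≤ N ∧ E N ∧ (N : ℤ) = u * (α * z.1 + β * z.2 : ℕ) + w)).card : ℝ) ≤
      M * (C * (u * Z + W) ^ θ) := by
  have hW : 0 ≤ W := (abs_nonneg _).trans hw
  obtain ⟨y, hy⟩ : ∃ y, y = u * Z + W := ⟨_, rfl⟩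
  have hy0 : 0 ≤ y := by rw [hy]; positivity
  rw [← hy]
  obtain ⟨S, hS⟩ : ∃ S, S = (Icc 1 X ×ˢ Icc 1 X).filter (fun z : ℕ × ℕ => Q z ∧
      ∃ N : ℕ, 1 ≤ N ∧ E N ∧ (N : ℤ) = u * (α * z.1 + β * z.2 : ℕ) + w) := ⟨_, rfl⟩
  rw [← hS]
  obtain ⟨f, hf⟩ : ∃ f : ℕ × ℕ → ℕ, f = fun z => ((u : ℤ) * (α * z.1 + β * z.2 : ℕ) + w).toNat := ⟨_, rfl⟩
  have hfN : ∀ z (N : ℕ), (N : ℤ) = u * (α * z.1 + β * z.2 : ℕ) + w → f z = N := by
    intro z N h
    rw [hf]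
    simp only
    rw [← h]
    simp
  have h1 : S.card ≤ M * (S.image f).card := by
    apply card_le_mul_card_image
    intro N hN
    refine le_trans (card_le_card ?_) (hfib (((N : ℤ) - w) / u).toNat)
    intro z hz
    rw [mem_filter, hS, mem_filter] at hz
    obtain ⟨⟨h2, h3, N', h4, h5, h6⟩, h7⟩ := hz
    rw [mem_filter]
    refine ⟨h2, ?_⟩
    rw [hfN z N' h6] at h7
    rw [h7] at h6
    have hu0 : (u : ℤ) ≠ 0 := by exact_mod_cast (by omega : u ≠ 0)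
    have h8 : (N : ℤ) - w = u * (α * z.1 + β * z.2 : ℕ) := by linarith
    rw [h8, Int.mul_ediv_cancel_left _ hu0]
    simp only [Int.toNat_natCast]
  have h9 : ((S.image f).card : ℝ) ≤ C * y ^ θ := by
    refine le_trans ?_ (hE y hy0)
    apply Nat.cast_le.2
    apply card_le_card
    intro N hN
    rw [mem_image] at hN
    obtain ⟨z, hz, hzN⟩ := hN
    rw [hS, mem_filter] at hz
    obtain ⟨h2, h3, N', h4, h5, h6⟩ := hz
    rw [hfN z N' h6] at hzN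
    rw [hzN] at h4 h5 h6
    rw [mem_filter, mem_Icc]
    refine ⟨⟨h4, Nat.le_floor ?_⟩, h5⟩
    have h10 := hQ z h2 h3
    have h11 : (N : ℝ) = u * ((α * z.1 + β * z.2 : ℕ) : ℝ) + w := by
      have : ((N : ℤ) : ℝ) = ((u * (α * z.1 + β * z.2 : ℕ) + w : ℤ) : ℝ) := by rw [h6]
      push_cast at this ⊢
      exact this
    rw [h11, hy]
    have h12 : (w : ℝ) ≤ W := (le_abs_self _).trans hw
    have h13 := mul_le_mul_of_nonneg_left h10 (Nat.cast_nonneg (α := ℝ) u)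
    linarith
  calc (S.card : ℝ) ≤ ((M * (S.image f).card : ℕ) : ℝ) := by exact_mod_cast h1
    _ = M * ((S.image f).card : ℝ) := by push_cast; ring
    _ ≤ M * (C * y ^ θ) := mul_le_mul_of_nonneg_left h9 (Nat.cast_nonneg _)

variable {s t : ℕ}

theorem seq_mono (hs : 1 ≤ s) : ∀ n, seq s t 0 1 n ≤ seq s t 0 1 (n + 1)
  | 0 => by simp [seq]
  | n + 1 => by
    have e : seq s t 0 1 (n + 1 + 1) = s * seq s t 0 1 (n + 1) + t * seq s t 0 1 n := by rw [seq]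
    rw [e]
    have := Nat.le_mul_of_pos_left (seq s t 0 1 (n + 1)) hs
    omega

theorem seq_pos (hs : 1 ≤ s) : ∀ n, 1 ≤ seq s t 0 1 (n + 1)
  | 0 => by simp [seq]
  | n + 1 => (seq_pos hs n).trans (seq_mono hs (n + 1))

open Classical in
/-- **Recurrence sequences.** -/
theorem recurrences (hs : 1 ≤ s) (ht : 1 ≤ t) (hst : Nat.Coprime s t) (θ κ ε : ℝ) (hθ0 : 0 ≤ θ) (hθ1 : θ < 1)
    (hκ0 : 0 ≤ κ) (hε : 0 < ε) {E : ℕ → Prop} (hE : Sparse θ E) :
    ∃ η : ℝ, 0 < η ∧ ∃ X₀ : ℕ, ∀ X : ℕ, X₀ ≤ X →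
      (((Icc 1 X ×ˢ Icc 1 X).filter (fun z : ℕ × ℕ => ∃ (n u N : ℕ) (w : ℤ),
        (seq s t z.1 z.2 n : ℝ) ≤ (X : ℝ) ^ κ ∧ 1 ≤ u ∧ (u : ℝ) ≤ (X : ℝ) ^ η ∧ |(w : ℝ)| ≤ (X : ℝ) ^ η ∧
        1 ≤ N ∧ (N : ℤ) = u * (seq s t z.1 z.2 n : ℕ) + w ∧ E N)).card : ℝ) ≤
        (X : ℝ) ^ (max (1 + θ) (κ * θ) + ε) := by
  obtain ⟨C, hC, hEr⟩ := hE.real hθ0
  obtain ⟨η, hη⟩ : ∃ η, η = ε / 4 := ⟨_, rfl⟩
  have hη0 : 0 < η := by rw [hη]; positivity
  refine ⟨η, hη0, ?_⟩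
  have hev := (ev_log (24 * C * (2 + t) * κ) (18 * C * (2 + t)) η hη0).and (eventually_ge_atTop 1)
  obtain ⟨X₀, hX₀⟩ := eventually_atTop.1 hev
  refine ⟨X₀, fun X hX => ?_⟩
  obtain ⟨h1, h3⟩ := hX₀ X hX
  have hX1 : (1 : ℝ) ≤ X := by exact_mod_cast h3
  have hX0 : (0 : ℝ) < X := by linarith
  have hL0 : 0 ≤ Real.log X := Real.log_nonneg hX1
  obtain ⟨K, hK⟩ : ∃ K, K = ⌊2 + 4 * (κ * Real.log X)⌋₊ := ⟨_, rfl⟩
  obtain ⟨V, hV⟩ : ∃ V, V = (X : ℝ) ^ η := ⟨_, rfl⟩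
  have hV1 : 1 ≤ V := by rw [hV]; exact Real.one_le_rpow hX1 hη0.le
  obtain ⟨b, hb⟩ : ∃ b, b = max (1 + θ) (κ * θ) := ⟨_, rfl⟩
  rw [← hV, ← hb]
  have hb1 : 1 + θ ≤ b := by rw [hb]; exact le_max_left _ _
  have hb2 : κ * θ ≤ b := by rw [hb]; exact le_max_right _ _
  have hVθ : V ^ θ ≤ V := by
    calc V ^ θ ≤ V ^ (1 : ℝ) := Real.rpow_le_rpow_of_exponent_le hV1 hθ1.le
      _ = V := Real.rpow_one _
  have hle1 : ∀ a : ℝ, 1 ≤ a → a ^ θ ≤ a := by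
    intro a ha
    calc a ^ θ ≤ a ^ (1 : ℝ) := Real.rpow_le_rpow_of_exponent_le ha hθ1.le
      _ = a := Real.rpow_one _
  have htr : (1 : ℝ) ≤ t := by exact_mod_cast ht
  have hXκ : 1 ≤ (X : ℝ) ^ κ := Real.one_le_rpow hX1 hκ0
  obtain ⟨I, hI⟩ : ∃ I, I = range (K + 1) ×ˢ (Icc 1 ⌊V⌋₊ ×ˢ Icc (-(⌊V⌋₊ : ℤ)) ⌊V⌋₊) := ⟨_, rfl⟩
  have hterm : ∀ i ∈ I, (((Icc 1 X ×ˢ Icc 1 X).filter (fun z : ℕ × ℕ => (seq s t z.1 z.2 i.1 : ℝ) ≤ (X : ℝ) ^ κ ∧
      ∃ N : ℕ, 1 ≤ N ∧ E N ∧ (N : ℤ) = i.2.1 * (seq s t 1 0 i.1 * z.1 + seq s t 0 1 i.1 * z.2 : ℕ) + i.2.2)).card : ℝ) ≤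
      2 * C * (2 + t) * V * (X : ℝ) ^ b := by
    rintro ⟨n, u, w⟩ hi
    rw [hI, mem_product, mem_product, mem_range, mem_Icc, mem_Icc] at hi
    obtain ⟨hk, ⟨hu1, hu2⟩, hw1, hw2⟩ := hi
    simp only at hk hu1 hu2 hw1 hw2 ⊢
    have hu3 : (u : ℝ) ≤ V := (Nat.le_floor_iff (by linarith)).1 hu2
    have hw3 : |(w : ℝ)| ≤ V := by
      have h4 : ((⌊V⌋₊ : ℕ) : ℝ) ≤ V := Nat.floor_le (by linarith)
      have h5 : |w| ≤ (⌊V⌋₊ : ℤ) := abs_le.2 ⟨hw1, hw2⟩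
      have h6 : ((|w| : ℤ) : ℝ) ≤ ((⌊V⌋₊ : ℤ) : ℝ) := by exact_mod_cast h5
      push_cast at h6
      linarith
    obtain ⟨α, hα⟩ : ∃ α, α = seq s t 1 0 n := ⟨_, rfl⟩
    obtain ⟨β, hβ⟩ : ∃ β, β = seq s t 0 1 n := ⟨_, rfl⟩
    have hco : Nat.Coprime α β := by rw [hα, hβ]; exact coprime_coeff hst n
    have hlin : ∀ z : ℕ × ℕ, seq s t z.1 z.2 n = α * z.1 + β * z.2 := by
      intro z
      rw [seq_lin, hα, hβ]
    rw [← hα, ← hβ]
    have hbox : ∀ z ∈ Icc 1 X ×ˢ Icc 1 X, (z.1 : ℝ) ≤ X ∧ (z.2 : ℝ) ≤ X := by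
      intro z hz
      rw [mem_product, mem_Icc, mem_Icc] at hz
      exact ⟨by exact_mod_cast hz.1.2, by exact_mod_cast hz.2.2⟩
    rcases Nat.eq_zero_or_pos n with hn | hn
    · -- `n = 0`
      have hα1 : α = 1 := by rw [hα, hn]; simp [seq]
      have hβ0 : β = 0 := by rw [hβ, hn]; simp [seq]
      have h4 := form hC.le hEr α β X u (X / α + 1) w hu1 V X hw3 hX0.le
        (fun z => (seq s t z.1 z.2 n : ℝ) ≤ (X : ℝ) ^ κ)
        (fun m => fiber' α β X m hco (by omega)) (by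
          intro z hz _
          rw [hα1, hβ0]
          simp only [one_mul, zero_mul, add_zero]
          exact (hbox z hz).1)
      refine h4.trans ?_
      rw [hα1, Nat.div_one]
      have h5 : ((X + 1 : ℕ) : ℝ) ≤ 2 * X := by push_cast; linarith
      have h6 : ((u : ℝ) * X + V) ^ θ ≤ (2 * V) * (X : ℝ) ^ θ := by
        calc ((u : ℝ) * X + V) ^ θ ≤ ((2 * V) * X) ^ θ := by
              apply Real.rpow_le_rpow (by positivity) _ hθ0
              nlinarith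
          _ = (2 * V) ^ θ * (X : ℝ) ^ θ := Real.mul_rpow (by positivity) hX0.le
          _ ≤ (2 * V) * (X : ℝ) ^ θ := mul_le_mul_of_nonneg_right (hle1 _ (by linarith)) (by positivity)
      calc ((X + 1 : ℕ) : ℝ) * (C * ((u : ℝ) * X + V) ^ θ) ≤ (2 * X) * (C * ((2 * V) * (X : ℝ) ^ θ)) := by
            apply mul_le_mul h5 (mul_le_mul_of_nonneg_left h6 hC.le) (by positivity) (by positivity)
        _ = 2 * C * 2 * V * ((X : ℝ) ^ (1 : ℝ) * (X : ℝ) ^ θ) := by rw [Real.rpow_one]; ring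
        _ = 2 * C * 2 * V * (X : ℝ) ^ (1 + θ) := by rw [← Real.rpow_add hX0]
        _ ≤ 2 * C * (2 + t) * V * (X : ℝ) ^ b := by
            apply mul_le_mul _ (Real.rpow_le_rpow_of_exponent_le hX1 hb1) (by positivity) (by positivity)
            apply mul_le_mul_of_nonneg_right _ (by linarith)
            apply mul_le_mul_of_nonneg_left _ (by positivity)
            linarith
    · obtain ⟨n', rfl⟩ : ∃ n', n = n' + 1 := ⟨n - 1, by omega⟩
      have hβ1 : 1 ≤ β := by rw [hβ]; exact seq_pos hs n'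
      have hαβ : α ≤ t * β := by
        rw [hα, hβ, seq_one_zero]
        exact Nat.mul_le_mul_left _ (seq_mono hs n')
      have hβr : (1 : ℝ) ≤ β := by exact_mod_cast hβ1
      have hαβr : (α : ℝ) ≤ t * β := by exact_mod_cast hαβ
      rcases le_or_gt β X with hβX | hβX
      · -- `β ≤ X`
        have h4 := form hC.le hEr α β X u (X / β + 1) w hu1 V ((1 + t) * β * X) hw3 (by positivity)
          (fun z => (seq s t z.1 z.2 (n' + 1) : ℝ) ≤ (X : ℝ) ^ κ)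
          (fun m => fiber α β X m hco hβ1) (by
            intro z hz _
            obtain ⟨h5, h6⟩ := hbox z hz
            push_cast
            have h7 : (α : ℝ) * z.1 ≤ (t * β) * X := mul_le_mul hαβr h5 (by positivity) (by positivity)
            have h8 : (β : ℝ) * z.2 ≤ β * X := mul_le_mul_of_nonneg_left h6 (by positivity)
            linarith)
        refine h4.trans ?_
        have h5 : ((X / β + 1 : ℕ) : ℝ) ≤ 2 * X / β := by
          have h6 : ((X / β : ℕ) : ℝ) ≤ (X : ℝ) / β := Nat.cast_div_le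
          have h7 : (1 : ℝ) ≤ X / β := by
            rw [le_div_iff₀ (by linarith), one_mul]
            exact_mod_cast hβX
          push_cast
          have h8 : 2 * (X : ℝ) / β = X / β + X / β := by ring
          linarith
        have h6 : ((u : ℝ) * ((1 + t) * β * X) + V) ^ θ ≤ ((2 + t) * V) * (β * (X : ℝ) ^ θ) := by
          have h7 : (u : ℝ) * ((1 + t) * β * X) + V ≤ ((2 + t) * V) * (β * X) := by
            have h8 : (1 : ℝ) ≤ β * X := by nlinarith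
            have h9 : (u : ℝ) * ((1 + t) * β * X) ≤ V * ((1 + t) * β * X) :=
              mul_le_mul_of_nonneg_right hu3 (by positivity)
            have h10 : V * 1 ≤ V * (β * X) := mul_le_mul_of_nonneg_left h8 (by linarith)
            linarith
          calc ((u : ℝ) * ((1 + t) * β * X) + V) ^ θ ≤ (((2 + t) * V) * (β * X)) ^ θ :=
                Real.rpow_le_rpow (by positivity) h7 hθ0
            _ = ((2 + t) * V) ^ θ * ((β : ℝ) ^ θ * (X : ℝ) ^ θ) := by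
                rw [Real.mul_rpow (by positivity) (by positivity), Real.mul_rpow (by positivity) hX0.le]
            _ ≤ ((2 + t) * V) * (β * (X : ℝ) ^ θ) := by
                apply mul_le_mul (hle1 _ (by nlinarith)) _ (by positivity) (by positivity)
                exact mul_le_mul_of_nonneg_right (hle1 _ hβr) (by positivity)
        calc ((X / β + 1 : ℕ) : ℝ) * (C * ((u : ℝ) * ((1 + t) * β * X) + V) ^ θ)
            ≤ (2 * X / β) * (C * (((2 + t) * V) * (β * (X : ℝ) ^ θ))) := by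
              apply mul_le_mul h5 (mul_le_mul_of_nonneg_left h6 hC.le) (by positivity) (by positivity)
          _ = 2 * C * (2 + t) * V * ((X : ℝ) ^ (1 : ℝ) * (X : ℝ) ^ θ) := by
              rw [Real.rpow_one]
              field_simp
          _ = 2 * C * (2 + t) * V * (X : ℝ) ^ (1 + θ) := by rw [← Real.rpow_add hX0]
          _ ≤ 2 * C * (2 + t) * V * (X : ℝ) ^ b :=
              mul_le_mul_of_nonneg_left (Real.rpow_le_rpow_of_exponent_le hX1 hb1) (by positivity)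
      · -- `β > X`
        have h4 := form hC.le hEr α β X u (X / β + 1) w hu1 V ((X : ℝ) ^ κ) hw3 (by positivity)
          (fun z => (seq s t z.1 z.2 (n' + 1) : ℝ) ≤ (X : ℝ) ^ κ)
          (fun m => fiber α β X m hco hβ1) (by
            intro z hz h5
            rw [hlin] at h5
            exact h5)
        refine h4.trans ?_
        rw [Nat.div_eq_of_lt hβX]
        have h6 : ((u : ℝ) * (X : ℝ) ^ κ + V) ^ θ ≤ (2 * V) * (X : ℝ) ^ (κ * θ) := by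
          have h7 : (u : ℝ) * (X : ℝ) ^ κ + V ≤ (2 * V) * (X : ℝ) ^ κ := by
            have h9 : (u : ℝ) * (X : ℝ) ^ κ ≤ V * (X : ℝ) ^ κ := mul_le_mul_of_nonneg_right hu3 (by positivity)
            have h10 : V * 1 ≤ V * (X : ℝ) ^ κ := mul_le_mul_of_nonneg_left hXκ (by linarith)
            linarith
          calc ((u : ℝ) * (X : ℝ) ^ κ + V) ^ θ ≤ ((2 * V) * (X : ℝ) ^ κ) ^ θ :=
                Real.rpow_le_rpow (by positivity) h7 hθ0
            _ = (2 * V) ^ θ * (X : ℝ) ^ (κ * θ) := by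
                rw [Real.mul_rpow (by positivity) (by positivity), ← Real.rpow_mul hX0.le]
            _ ≤ (2 * V) * (X : ℝ) ^ (κ * θ) :=
                mul_le_mul_of_nonneg_right (hle1 _ (by linarith)) (by positivity)
        calc ((0 + 1 : ℕ) : ℝ) * (C * ((u : ℝ) * (X : ℝ) ^ κ + V) ^ θ)
            ≤ 1 * (C * ((2 * V) * (X : ℝ) ^ (κ * θ))) := by
              apply mul_le_mul (by norm_num) (mul_le_mul_of_nonneg_left h6 hC.le) (by positivity) (by norm_num)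
          _ = 2 * C * 1 * V * (X : ℝ) ^ (κ * θ) := by ring
          _ ≤ 2 * C * (2 + t) * V * (X : ℝ) ^ b := by
              apply mul_le_mul _ (Real.rpow_le_rpow_of_exponent_le hX1 hb2) (by positivity) (by positivity)
              apply mul_le_mul_of_nonneg_right _ (by linarith)
              apply mul_le_mul_of_nonneg_left _ (by positivity)
              linarith
  have hsub : (Icc 1 X ×ˢ Icc 1 X).filter (fun z : ℕ × ℕ => ∃ (n u N : ℕ) (w : ℤ),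
        (seq s t z.1 z.2 n : ℝ) ≤ (X : ℝ) ^ κ ∧ 1 ≤ u ∧ (u : ℝ) ≤ V ∧ |(w : ℝ)| ≤ V ∧
        1 ≤ N ∧ (N : ℤ) = u * (seq s t z.1 z.2 n : ℕ) + w ∧ E N) ⊆
      I.biUnion (fun i => (Icc 1 X ×ˢ Icc 1 X).filter (fun z : ℕ × ℕ => (seq s t z.1 z.2 i.1 : ℝ) ≤ (X : ℝ) ^ κ ∧
      ∃ N : ℕ, 1 ≤ N ∧ E N ∧ (N : ℤ) = i.2.1 * (seq s t 1 0 i.1 * z.1 + seq s t 0 1 i.1 * z.2 : ℕ) + i.2.2)) := by
    intro z hz
    rw [mem_filter] at hz
    obtain ⟨hz1, n, u, N, w, h4, h5, h6, h7, h8, h9, h10⟩ := hz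
    rw [mem_biUnion]
    refine ⟨(n, u, w), ?_, ?_⟩
    · rw [hI, mem_product, mem_product, mem_range, mem_Icc, mem_Icc]
      simp only
      have h11 : n ≤ K := by
        rw [hK]
        apply Nat.le_floor
        have h12 : (seq s t 0 1 n : ℝ) ≤ (X : ℝ) ^ κ := by
          refine le_trans ?_ h4
          rw [seq_lin s t z.1 z.2 n]
          have h13 : 1 ≤ z.2 := by
            rw [mem_product, mem_Icc, mem_Icc] at hz1
            exact hz1.2.1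
          have h14 : seq s t 0 1 n ≤ seq s t 0 1 n * z.2 := Nat.le_mul_of_pos_right _ h13
          exact_mod_cast (by omega : seq s t 0 1 n ≤ seq s t 1 0 n * z.1 + seq s t 0 1 n * z.2)
        have h15 := index_le hs ht n ((X : ℝ) ^ κ) hXκ h12
        rw [Real.log_rpow hX0] at h15
        exact h15
      have h12 : |w| ≤ (⌊V⌋₊ : ℤ) := by
        have h13 : ((w.natAbs : ℕ) : ℝ) ≤ V := by
          rw [Nat.cast_natAbs]
          exact_mod_cast h7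
        have h14 : w.natAbs ≤ ⌊V⌋₊ := Nat.le_floor h13
        rw [Int.abs_eq_natAbs]
        exact_mod_cast h14
      exact ⟨by omega, ⟨h5, Nat.le_floor h6⟩, (abs_le.1 h12).1, (abs_le.1 h12).2⟩
    · rw [mem_filter]
      refine ⟨hz1, h4, N, h8, h10, ?_⟩
      rw [h9, seq_lin s t z.1 z.2 n]
  have hcardI : (I.card : ℝ) ≤ 3 * (4 * κ * Real.log X + 3) * V ^ 2 := by
    rw [hI, card_product, card_product, card_range, Nat.card_Icc, Int.card_Icc]
    have h4 : ((⌊V⌋₊ : ℕ) : ℝ) ≤ V := Nat.floor_le (by linarith)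
    have h5 : ((((⌊V⌋₊ : ℤ) + 1 - -(⌊V⌋₊ : ℤ)).toNat : ℕ) : ℝ) ≤ 3 * V := by
      have e : ((⌊V⌋₊ : ℤ) + 1 - -(⌊V⌋₊ : ℤ)).toNat = 2 * ⌊V⌋₊ + 1 := by omega
      rw [e]
      push_cast
      linarith
    have h6 : ((K : ℕ) : ℝ) ≤ 2 + 4 * (κ * Real.log X) := by rw [hK]; exact Nat.floor_le (by positivity)
    have e2 : ⌊V⌋₊ + 1 - 1 = ⌊V⌋₊ := by omega
    rw [e2]
    push_cast
    push_cast at h5
    calc ((K : ℝ) + 1) * ((⌊V⌋₊ : ℝ) * (((⌊V⌋₊ : ℤ) + 1 - -(⌊V⌋₊ : ℤ)).toNat : ℝ))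
        ≤ (4 * κ * Real.log X + 3) * (V * (3 * V)) := by
          apply mul_le_mul (by linarith) _ (by positivity) (by positivity)
          apply mul_le_mul h4 _ (by positivity) (by positivity)
          exact_mod_cast h5
      _ = _ := by ring
  calc _ ≤ ((I.biUnion (fun i => (Icc 1 X ×ˢ Icc 1 X).filter (fun z : ℕ × ℕ => (seq s t z.1 z.2 i.1 : ℝ) ≤ (X : ℝ) ^ κ ∧
      ∃ N : ℕ, 1 ≤ N ∧ E N ∧ (N : ℤ) = i.2.1 * (seq s t 1 0 i.1 * z.1 + seq s t 0 1 i.1 * z.2 : ℕ) + i.2.2))).card : ℝ) := by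
          exact_mod_cast card_le_card hsub
    _ ≤ ((∑ i ∈ I, ((Icc 1 X ×ˢ Icc 1 X).filter (fun z : ℕ × ℕ => (seq s t z.1 z.2 i.1 : ℝ) ≤ (X : ℝ) ^ κ ∧
      ∃ N : ℕ, 1 ≤ N ∧ E N ∧ (N : ℤ) = i.2.1 * (seq s t 1 0 i.1 * z.1 + seq s t 0 1 i.1 * z.2 : ℕ) + i.2.2)).card : ℕ) : ℝ) := by
          exact_mod_cast card_biUnion_le
    _ ≤ ∑ i ∈ I, 2 * C * (2 + t) * V * (X : ℝ) ^ b := by
          rw [Nat.cast_sum]
          exact sum_le_sum hterm
    _ = I.card * (2 * C * (2 + t) * V * (X : ℝ) ^ b) := by rw [sum_const, nsmul_eq_mul]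
    _ ≤ (3 * (4 * κ * Real.log X + 3) * V ^ 2) * (2 * C * (2 + t) * V * (X : ℝ) ^ b) :=
          mul_le_mul_of_nonneg_right hcardI (by positivity)
    _ = (24 * C * (2 + t) * κ * Real.log X + 18 * C * (2 + t)) *
          ((X : ℝ) ^ η * (X : ℝ) ^ η * (X : ℝ) ^ η * (X : ℝ) ^ b) := by
          rw [hV]; ring
    _ ≤ (X : ℝ) ^ η * ((X : ℝ) ^ η * (X : ℝ) ^ η * (X : ℝ) ^ η * (X : ℝ) ^ b) :=
          mul_le_mul_of_nonneg_right h1 (by positivity)
    _ = (X : ℝ) ^ (b + ε) := by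
          rw [← Real.rpow_add hX0, ← Real.rpow_add hX0, ← Real.rpow_add hX0, ← Real.rpow_add hX0]
          congr 1
          rw [hη]; ring

end Pool.Agent.Run7.h496.PS
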