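import Pool.Agent.Run7.h496.PS.Traj
import Pool.Agent.Results.MP_b58c63_nt.FewExceptionsAllScales
import Pool.Agent.Results.MP_b454d1_nt.SqrtWindowFewExceptions

/-! The exceptional set of the problem: a prime in `(√N, 4 √N)` plus a number with at most `r` prime factors. -/

set_option autoImplicit false

namespace Pool.Agent.Run7.h496.PS

open Pool.Agent.Results.MP_b58c63_nt

open Finset

/-- the variable part of the singular series of the Goldbach problem -/
noncomputable def sing (N : ℕ) : ℝ :=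
  ∏ p ∈ N.primeFactors.erase 2, (((p : ℝ) - 1) / ((p : ℝ) - 2))

open Classical in
/-- The number of the primes `p < N` with `√N < p < 4 √N` such that `N - p` has at most `r` prime factors (counted with
multiplicity), all of them at least `N ^ (1 / 16) / 2`. -/
noncomputable def count (r N : ℕ) : ℕ :=
  ((range N).filter (fun p : ℕ => p.Prime ∧ √(N : ℝ) < p ∧ (p : ℝ) < 4 * √(N : ℝ) ∧
    (N - p).primeFactorsList.length ≤ r ∧
    ∀ q : ℕ, q.Prime → q ∣ (N - p) → (N : ℝ) ^ ((1 : ℝ) / 16) / 2 ≤ q)).card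

/-- `count r N` is at least `δ` times the expected order `sing N * √N / (log N) ^ 2`. -/
def Good (r : ℕ) (δ : ℝ) (N : ℕ) : Prop := δ * sing N * (√(N : ℝ) / Real.log N ^ 2) ≤ count r N

/-- Richert's constant `Λ_r = 1 + log ((1 + 3 ^ r) / 4) / log 3` -/
noncomputable def richert (r : ℕ) : ℝ := 1 + Real.log ((1 + 3 ^ r) / 4) / Real.log 3

/-- `r = 2` and `θ > 13 / 22`, or `r ≥ 3`, `θ > 0` and `θ > 2 / Λ_r - 1 / 2`. (This holds for `r = 3`, `θ = 2 / 9`, for
`r = 4`, `θ = 1 / 29`, and for all `r ≥ 5`, `θ > 0`.) -/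
def Exponent (r : ℕ) (θ : ℝ) : Prop :=
  (r = 2 ∧ 13 / 22 < θ) ∨ (3 ≤ r ∧ 0 < θ ∧ 2 / richert r - 1 / 2 < θ)

theorem richert_gt {r : ℕ} (hr : 3 ≤ r) : 2 < richert r := by
  unfold richert
  have hl3 : 0 < Real.log 3 := Real.log_pos (by norm_num)
  have h1 : (27 : ℝ) ≤ 3 ^ r := by
    calc (27 : ℝ) = 3 ^ 3 := by norm_num
      _ ≤ 3 ^ r := pow_le_pow_right₀ (by norm_num) hr
  have h2 : Real.log 3 < Real.log ((1 + 3 ^ r) / 4) := Real.log_lt_log (by norm_num) (by linarith)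
  have h3 : 1 < Real.log ((1 + 3 ^ r) / 4) / Real.log 3 := by
    rw [lt_div_iff₀ hl3, one_mul]
    exact h2
  linarith

theorem exponent_three : Exponent 3 (2 / 9) := by
  refine Or.inr ⟨le_rfl, by norm_num, ?_⟩
  have h1 : 1 < (361 / 1000 : ℝ) * richert 3 := Pool.Agent.T6.H57.Lam3
  have h2 : 0 < richert 3 := by linarith [richert_gt (r := 3) le_rfl]
  have h3 : 2 / richert 3 ≤ 722 / 1000 := by
    rw [div_le_iff₀ h2]
    linarith
  linarith

theorem exponent_four : Exponent 4 (1 / 29) := by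
  refine Or.inr ⟨by norm_num, by norm_num, ?_⟩
  have h1 : 1 < (2669 / 10000 : ℝ) * richert 4 := Pool.Agent.T6.H57.Lam4
  have h2 : 0 < richert 4 := by linarith [richert_gt (r := 4) (by norm_num)]
  have h3 : 2 / richert 4 ≤ 5338 / 10000 := by
    rw [div_le_iff₀ h2]
    linarith
  linarith

theorem exponent_five {r : ℕ} (hr : 5 ≤ r) {θ : ℝ} (hθ : 0 < θ) : Exponent r θ := by
  refine Or.inr ⟨by omega, hθ, ?_⟩
  have hl3 : 0 < Real.log 3 := Real.log_pos (by norm_num)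
  have h1 : (243 : ℝ) ≤ 3 ^ r := by
    calc (243 : ℝ) = 3 ^ 5 := by norm_num
      _ ≤ 3 ^ r := pow_le_pow_right₀ (by norm_num) hr
  have h2 : 3 * Real.log 3 ≤ Real.log ((1 + 3 ^ r) / 4) := by
    have e : 3 * Real.log 3 = Real.log 27 := by
      rw [show (27 : ℝ) = 3 ^ 3 by norm_num, Real.log_pow]
      push_cast
      ring
    rw [e]
    exact Real.log_le_log (by norm_num) (by linarith)
  have h3 : 4 ≤ richert r := by
    unfold richert
    have : 3 ≤ Real.log ((1 + 3 ^ r) / 4) / Real.log 3 := by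
      rw [le_div_iff₀ hl3]
      exact h2
    linarith
  have h4 : 2 / richert r ≤ 1 / 2 := by
    rw [div_le_div_iff₀ (by linarith) (by norm_num)]
    linarith
  linarith

theorem exponent_pos {r : ℕ} {θ : ℝ} (h : Exponent r θ) : 0 < θ := by
  rcases h with ⟨-, h⟩ | ⟨-, h, -⟩
  · linarith
  · exact h

theorem exponent_mono {r : ℕ} {θ θ' : ℝ} (h : Exponent r θ) (h' : θ ≤ θ') : Exponent r θ' := by
  rcases h with ⟨h1, h⟩ | ⟨h1, h, h2⟩
  · exact Or.inl ⟨h1, by linarith⟩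
  · exact Or.inr ⟨h1, by linarith, by linarith⟩

/-- the exceptional even numbers are sparse -/
theorem sparse {r : ℕ} {θ : ℝ} (h : Exponent r θ) :
    ∃ δ : ℝ, 0 < δ ∧ Sparse θ (fun N => Even N ∧ ¬ Good r δ N) := by
  classical
  rcases h with ⟨rfl, hθ⟩ | ⟨hr, hθ0, hθ⟩
  · obtain ⟨δ, C, hδ, hC, H⟩ := Pool.Agent.Results.MP_b454d1_nt.SqrtWindowFewExceptions.result 2 (6 / 11) (6 / 11 / 4)
      (θ - 13 / 22) (Or.inr ⟨rfl, le_rfl, rfl⟩) (by norm_num) (by linarith)
    refine ⟨δ, hδ, C, hC, fun X hX => ?_⟩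
    have h1 := H X hX
    have e : (2 : ℝ) * (6 / 11) - 1 / 2 + (θ - 13 / 22) = θ := by ring
    rw [e] at h1
    refine le_trans ?_ h1
    apply Nat.cast_le.2
    apply card_le_card
    intro N hN'
    have hN := (@mem_filter ℕ _ (_) _ _).1 hN'
    rw [mem_filter]
    refine ⟨hN.1, hN.2.1, ?_⟩
    have h2 := hN.2.2
    unfold Good at h2
    rw [not_le] at h2
    refine lt_of_le_of_lt ?_ h2
    have hN1 : (1 : ℝ) ≤ N := by exact_mod_cast (mem_Icc.1 hN.1).1
    have h3 : Pool.Agent.Results.MP_b454d1_nt.SqrtWindowFewExceptions.inSqrt 2 ((N : ℝ) ^ ((6 : ℝ) / 11 / 4) / 2) N ≤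
        count 2 N := by
      unfold Pool.Agent.Results.MP_b454d1_nt.SqrtWindowFewExceptions.inSqrt count
      apply card_le_card
      intro p hp
      rw [mem_filter] at hp ⊢
      obtain ⟨g1, g2, g3, g4, g5, g6⟩ := hp
      refine ⟨g1, g2, g3, g4, g5, fun q hq hqd => ?_⟩
      have g7 := g6 q hq hqd
      have g8 : (N : ℝ) ^ ((1 : ℝ) / 16) ≤ (N : ℝ) ^ ((6 : ℝ) / 11 / 4) :=
        Real.rpow_le_rpow_of_exponent_le hN1 (by norm_num)
      linarith
    exact_mod_cast h3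
  · have hL := richert_gt hr
    obtain ⟨L, hLd⟩ : ∃ L, L = richert r := ⟨_, rfl⟩
    rw [← hLd] at hL hθ
    obtain ⟨τ₀, hτ₀⟩ : ∃ τ₀, τ₀ = max (1 / 4) (1 / L) := ⟨_, rfl⟩
    have h1L : 1 / L < 1 / 2 := one_div_lt_one_div_of_lt (by norm_num) hL
    have h1 : τ₀ < 1 / 2 := by rw [hτ₀]; exact max_lt (by norm_num) h1L
    have h2 : 1 / 4 ≤ τ₀ := by rw [hτ₀]; exact le_max_left _ _
    have h3 : 1 / L ≤ τ₀ := by rw [hτ₀]; exact le_max_right _ _
    have h4 : 2 * τ₀ - 1 / 2 < θ := by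
      rcases max_choice (1 / 4 : ℝ) (1 / L) with h5 | h5
      · rw [hτ₀, h5]
        linarith
      · rw [hτ₀, h5]
        have : 2 * (1 / L) = 2 / L := by ring
        linarith
    obtain ⟨κ, hκ⟩ : ∃ κ, κ = min ((1 / 2 - τ₀) / 2) ((θ - (2 * τ₀ - 1 / 2)) / 4) := ⟨_, rfl⟩
    have hκ0 : 0 < κ := by rw [hκ]; exact lt_min (by linarith) (by linarith)
    have hκ1 : κ ≤ (1 / 2 - τ₀) / 2 := by rw [hκ]; exact min_le_left _ _
    have hκ2 : κ ≤ (θ - (2 * τ₀ - 1 / 2)) / 4 := by rw [hκ]; exact min_le_right _ _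
    have h6 : 1 < (τ₀ + κ) * L := by
      have h7 : 1 / L * L = 1 := by field_simp
      have h8 : 1 / L * L < (τ₀ + κ) * L := mul_lt_mul_of_pos_right (by linarith) (by linarith)
      linarith
    obtain ⟨δ, C, hδ, hC, H⟩ := Pool.Agent.T6.H57.winOf r (by omega) (τ₀ + κ) (1 / 16) θ (by linarith) (by linarith)
      (by rw [hLd] at h6; exact h6) (by linarith) (by linarith)
    refine ⟨δ, hδ, C, hC, fun X hX => ?_⟩
    refine le_trans ?_ (H X hX)
    apply Nat.cast_le.2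
    apply card_le_card
    intro N hN'
    have hN := (@mem_filter ℕ _ (_) _ _).1 hN'
    rw [mem_filter]
    refine ⟨hN.1, hN.2.1, ?_⟩
    have h2 := hN.2.2
    unfold Good at h2
    rw [not_le] at h2
    exact h2

end Pool.Agent.Run7.h496.PS
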