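import Pool.Agent.Run7.h469.CT.Count

/-! Trajectories of the `q x + c` maps and sparse exceptional sets. -/

set_option autoImplicit false

namespace Pool.Agent.Run7.h496.PS

open Finset Filter Topology
open _root_.Run7.h469.CT (step odds iter_add moment growth_real)

open Classical in
/-- `E` has at most `C X ^ θ` elements up to `X`. -/
def Sparse (θ : ℝ) (E : ℕ → Prop) : Prop :=
  ∃ C : ℝ, 0 < C ∧ ∀ X : ℕ, 1 ≤ X → (((Icc 1 X).filter E).card : ℝ) ≤ C * (X : ℝ) ^ θ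

open Classical in
theorem Sparse.real {θ : ℝ} (hθ : 0 ≤ θ) {E : ℕ → Prop} (h : Sparse θ E) :
    ∃ C : ℝ, 0 < C ∧ ∀ y : ℝ, 0 ≤ y → (((Icc 1 ⌊y⌋₊).filter E).card : ℝ) ≤ C * y ^ θ := by
  obtain ⟨C, hC, H⟩ := h
  refine ⟨C, hC, fun y hy => ?_⟩
  rcases Nat.eq_zero_or_pos ⌊y⌋₊ with h0 | h0
  · rw [h0]
    simp
    positivity
  · refine (H _ h0).trans ?_
    apply mul_le_mul_of_nonneg_left _ hC.le
    exact Real.rpow_le_rpow (Nat.cast_nonneg _) (Nat.floor_le hy) hθ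

variable {q c : ℕ}

open Classical in
theorem class_card (hq1 : 1 ≤ q) {E : ℕ → Prop} {C θ : ℝ}
    (hE : ∀ y : ℝ, 0 ≤ y → (((Icc 1 ⌊y⌋₊).filter E).card : ℝ) ≤ C * y ^ θ)
    (X k u r : ℕ) (w : ℤ) (hu : 1 ≤ u) (W : ℝ) (hw : |(w : ℝ)| ≤ W)
    (hck : ((c * k : ℕ) : ℝ) ≤ (X : ℝ) / 2 ^ k) :
    (((Icc 1 X).filter (fun m => m % 2 ^ k = r ∧
      ∃ N : ℕ, 1 ≤ N ∧ E N ∧ (N : ℤ) = u * ((step q c)^[k] m : ℕ) + w)).card : ℝ) ≤
      C * (2 * (u * q ^ (odds q c k r) * ((X : ℝ) / 2 ^ k)) + W) ^ θ := by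
  have hW : 0 ≤ W := (abs_nonneg _).trans hw
  obtain ⟨y, hy⟩ : ∃ y, y = 2 * (u * q ^ (odds q c k r) * ((X : ℝ) / 2 ^ k)) + W := ⟨_, rfl⟩
  have hy0 : 0 ≤ y := by rw [hy]; positivity
  rw [← hy]
  refine le_trans ?_ (hE y hy0)
  have h : ((Icc 1 X).filter (fun m => m % 2 ^ k = r ∧
      ∃ N : ℕ, 1 ≤ N ∧ E N ∧ (N : ℤ) = u * ((step q c)^[k] m : ℕ) + w)).card ≤
      ((Icc 1 ⌊y⌋₊).filter E).card := by
    apply card_le_card_of_injOn (fun m => ((u : ℤ) * ((step q c)^[k] m : ℕ) + w).toNat)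
    · intro m hm
      rw [mem_coe, mem_filter, mem_Icc] at hm
      obtain ⟨⟨h1, h2⟩, h3, N, h4, h5, h6⟩ := hm
      have h7 : ((u : ℤ) * ((step q c)^[k] m : ℕ) + w).toNat = N := by rw [← h6]; simp
      simp only [h7]
      rw [mem_coe, mem_filter, mem_Icc]
      refine ⟨⟨h4, ?_⟩, h5⟩
      apply Nat.le_floor
      have h8 := growth_real (c := c) hq1 X k u r m h2 h3 hck
      have h9 : (N : ℝ) = ((u * (step q c)^[k] m : ℕ) : ℝ) + w := by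
        have : ((N : ℤ) : ℝ) = ((u * ((step q c)^[k] m : ℕ) + w : ℤ) : ℝ) := by rw [h6]
        push_cast at this ⊢
        exact this
      rw [h9, hy]
      have h10 : (w : ℝ) ≤ W := (le_abs_self _).trans hw
      linarith
    · intro m hm m' hm' hmm
      rw [mem_coe, mem_filter] at hm hm'
      obtain ⟨-, h3, N, h4, h5, h6⟩ := hm
      obtain ⟨-, h3', N', h4', h5', h6'⟩ := hm'
      have h7 : ((u : ℤ) * ((step q c)^[k] m : ℕ) + w).toNat = N := by rw [← h6]; simp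
      have h7' : ((u : ℤ) * ((step q c)^[k] m' : ℕ) + w).toNat = N' := by rw [← h6']; simp
      simp only [h7, h7'] at hmm
      rw [← hmm] at h6'
      have h8 : (u : ℤ) * ((step q c)^[k] m : ℕ) = u * ((step q c)^[k] m' : ℕ) := by linarith
      have hu0 : (u : ℤ) ≠ 0 := by exact_mod_cast (by omega : u ≠ 0)
      have h9 : (step q c)^[k] m = (step q c)^[k] m' := by
        exact_mod_cast mul_left_cancel₀ hu0 h8
      have e : m = 2 ^ k * (m / 2 ^ k) + r := by rw [← h3, Nat.div_add_mod]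
      have e' : m' = 2 ^ k * (m' / 2 ^ k) + r := by rw [← h3', Nat.div_add_mod]
      have e2 : (step q c)^[k] m = q ^ (odds q c k r) * (m / 2 ^ k) + (step q c)^[k] r := by
        conv_lhs => rw [e]
        rw [iter_add]
      have e2' : (step q c)^[k] m' = q ^ (odds q c k r) * (m' / 2 ^ k) + (step q c)^[k] r := by
        conv_lhs => rw [e']
        rw [iter_add]
      have h10 : q ^ (odds q c k r) * (m / 2 ^ k) = q ^ (odds q c k r) * (m' / 2 ^ k) := by omega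
      have h11 := Nat.eq_of_mul_eq_mul_left (by positivity) h10
      rw [e, e', h11]
  exact_mod_cast h

open Classical in
theorem fixed (hq : Odd q) {E : ℕ → Prop} {C θ : ℝ} (hC : 0 ≤ C) (hθ0 : 0 ≤ θ) (hθ1 : θ ≤ 1)
    (hE : ∀ y : ℝ, 0 ≤ y → (((Icc 1 ⌊y⌋₊).filter E).card : ℝ) ≤ C * y ^ θ)
    (X k u : ℕ) (w : ℤ) (hu : 1 ≤ u) (W : ℝ) (hw : |(w : ℝ)| ≤ W)
    (hck : ((c * k : ℕ) : ℝ) ≤ (X : ℝ) / 2 ^ k) :
    (((Icc 1 X).filter (fun m =>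
      ∃ N : ℕ, 1 ≤ N ∧ E N ∧ (N : ℤ) = u * ((step q c)^[k] m : ℕ) + w)).card : ℝ) ≤
      C * ((2 * (u * ((X : ℝ) / 2 ^ k))) ^ θ * (1 + (q : ℝ) ^ θ) ^ k + 2 ^ k * W ^ θ) := by
  have hq1 : 1 ≤ q := hq.pos
  have hW : 0 ≤ W := (abs_nonneg _).trans hw
  have hmap : ∀ m ∈ (Icc 1 X).filter (fun m =>
      ∃ N : ℕ, 1 ≤ N ∧ E N ∧ (N : ℤ) = u * ((step q c)^[k] m : ℕ) + w), m % 2 ^ k ∈ range (2 ^ k) :=
    fun m _ => mem_range.2 (Nat.mod_lt _ (by positivity))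
  rw [card_eq_sum_card_fiberwise hmap, Nat.cast_sum]
  obtain ⟨Y, hY⟩ : ∃ Y, Y = 2 * (u * ((X : ℝ) / 2 ^ k)) := ⟨_, rfl⟩
  have hY0 : 0 ≤ Y := by rw [hY]; positivity
  have hterm : ∀ r ∈ range (2 ^ k), ((((Icc 1 X).filter (fun m =>
      ∃ N : ℕ, 1 ≤ N ∧ E N ∧ (N : ℤ) = u * ((step q c)^[k] m : ℕ) + w)).filter
        (fun m => m % 2 ^ k = r)).card : ℝ) ≤
      C * (Y ^ θ * ((q : ℝ) ^ θ) ^ (odds q c k r) + W ^ θ) := by
    intro r _
    have h1 := class_card (c := c) hq1 hE X k u r w hu W hw hck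
    have h2 : ((Icc 1 X).filter (fun m =>
      ∃ N : ℕ, 1 ≤ N ∧ E N ∧ (N : ℤ) = u * ((step q c)^[k] m : ℕ) + w)).filter
        (fun m => m % 2 ^ k = r) = (Icc 1 X).filter (fun m => m % 2 ^ k = r ∧
      ∃ N : ℕ, 1 ≤ N ∧ E N ∧ (N : ℤ) = u * ((step q c)^[k] m : ℕ) + w) := by
      rw [filter_filter]
      apply filter_congr
      intro m _
      tauto
    rw [h2]
    refine h1.trans ?_
    apply mul_le_mul_of_nonneg_left _ hC
    have h3 : 2 * (u * q ^ (odds q c k r) * ((X : ℝ) / 2 ^ k)) = Y * (q : ℝ) ^ (odds q c k r) := by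
      rw [hY]; ring
    rw [h3]
    refine (Real.rpow_add_le_add_rpow (by positivity) hW hθ0 hθ1).trans ?_
    rw [Real.mul_rpow hY0 (by positivity)]
    apply le_of_eq
    congr 2
    rw [← Real.rpow_natCast, ← Real.rpow_natCast, ← Real.rpow_mul (Nat.cast_nonneg _),
      ← Real.rpow_mul (Nat.cast_nonneg _), mul_comm]
  refine (sum_le_sum hterm).trans ?_
  rw [← mul_sum, sum_add_distrib, ← mul_sum, sum_const, card_range, nsmul_eq_mul]
  apply mul_le_mul_of_nonneg_left _ hC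
  have h4 := moment (q := q) (c := c) hq ((q : ℝ) ^ θ) (by positivity) k
  rw [← hY]
  have h5 := mul_le_mul_of_nonneg_left h4 (Real.rpow_nonneg hY0 θ)
  push_cast
  linarith

theorem ev_log (A B η : ℝ) (hη : 0 < η) : ∀ᶠ X : ℕ in atTop, A * Real.log X + B ≤ (X : ℝ) ^ η := by
  have h1 : (fun x : ℝ => A * Real.log x + B) =o[atTop] (fun x : ℝ => x ^ η) := by
    apply Asymptotics.IsLittleO.add
    · exact (isLittleO_log_rpow_atTop hη).const_mul_left A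
    · exact (Asymptotics.isLittleO_const_left.2 (Or.inr
        (tendsto_abs_atTop_atTop.comp (tendsto_rpow_atTop hη))))
  have h2 := (h1.comp_tendsto tendsto_natCast_atTop_atTop).bound (zero_lt_one)
  filter_upwards [h2] with X hX
  simp only [Function.comp, one_mul] at hX
  have h3 : (0 : ℝ) ≤ (X : ℝ) ^ η := Real.rpow_nonneg (Nat.cast_nonneg _) _
  rw [Real.norm_of_nonneg h3] at hX
  exact (le_abs_self _).trans hX

open Classical in
/-- **Trajectories.** -/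
theorem trajectories (hq : Odd q) (θ κ β ε : ℝ) (hθ0 : 0 ≤ θ) (hθ1 : θ < 1) (hκ0 : 0 ≤ κ)
    (hβ : β = θ + κ * (Real.log (1 + (q : ℝ) ^ θ) - θ * Real.log 2)) (hβ1 : β < 1) (hε : 0 < ε)
    {E : ℕ → Prop} (hE : Sparse θ E) :
    ∃ η : ℝ, 0 < η ∧ ∃ X₀ : ℕ, ∀ X : ℕ, X₀ ≤ X →
      (((Icc 1 X).filter (fun m => ∃ (k u N : ℕ) (w : ℤ), (k : ℝ) ≤ κ * Real.log X ∧ 1 ≤ u ∧
        (u : ℝ) ≤ (X : ℝ) ^ η ∧ |(w : ℝ)| ≤ (X : ℝ) ^ η ∧ 1 ≤ N ∧
        (N : ℤ) = u * ((step q c)^[k] m : ℕ) + w ∧ E N)).card : ℝ) ≤ (X : ℝ) ^ (β + ε) := by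
  obtain ⟨C, hC, hEr⟩ := hE.real hθ0
  have hq1 : 1 ≤ q := hq.pos
  have hq1r : (1 : ℝ) ≤ q := by exact_mod_cast hq1
  have hqθ : (1 : ℝ) ≤ (q : ℝ) ^ θ := Real.one_le_rpow hq1r hθ0
  have hl2 : 0 < Real.log 2 := Real.log_pos (by norm_num)
  have hlq : Real.log 2 ≤ Real.log (1 + (q : ℝ) ^ θ) := Real.log_le_log (by norm_num) (by linarith)
  obtain ⟨lam, hlam⟩ : ∃ lam, lam = Real.log (1 + (q : ℝ) ^ θ) - θ * Real.log 2 := ⟨_, rfl⟩
  have hlam1 : (1 - θ) * Real.log 2 ≤ lam := by rw [hlam]; linarith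
  rw [← hlam] at hβ
  have hκ2 : κ * Real.log 2 < 1 := by
    by_contra hcon
    push Not at hcon
    have h1 : κ * ((1 - θ) * Real.log 2) ≤ κ * lam := mul_le_mul_of_nonneg_left hlam1 hκ0
    have h2 : (1 - θ) * 1 ≤ (1 - θ) * (κ * Real.log 2) := mul_le_mul_of_nonneg_left hcon (by linarith)
    have h3 : κ * ((1 - θ) * Real.log 2) = (1 - θ) * (κ * Real.log 2) := by ring
    linarith
  have hκβ : κ * Real.log 2 ≤ β := by
    have h1 : κ * ((1 - θ) * Real.log 2) ≤ κ * lam := mul_le_mul_of_nonneg_left hlam1 hκ0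
    have h2 : θ * (κ * Real.log 2) ≤ θ * 1 := mul_le_mul_of_nonneg_left hκ2.le hθ0
    have h3 : κ * ((1 - θ) * Real.log 2) = κ * Real.log 2 - θ * (κ * Real.log 2) := by ring
    linarith
  obtain ⟨η, hη⟩ : ∃ η, η = ε / 4 := ⟨_, rfl⟩
  have hη0 : 0 < η := by rw [hη]; positivity
  refine ⟨η, hη0, ?_⟩
  have hev := (ev_log (9 * C * κ) (9 * C) η hη0).and
    ((ev_log (c * κ) 0 (1 - κ * Real.log 2) (by linarith)).and (eventually_ge_atTop 1))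
  obtain ⟨X₀, hX₀⟩ := eventually_atTop.1 hev
  refine ⟨X₀, fun X hX => ?_⟩
  obtain ⟨h1, h2, h3⟩ := hX₀ X hX
  have hX1 : (1 : ℝ) ≤ X := by exact_mod_cast h3
  have hX0 : (0 : ℝ) < X := by linarith
  have hL0 : 0 ≤ Real.log X := Real.log_nonneg hX1
  obtain ⟨K, hK⟩ : ∃ K, K = ⌊κ * Real.log X⌋₊ := ⟨_, rfl⟩
  obtain ⟨V, hV⟩ : ∃ V, V = (X : ℝ) ^ η := ⟨_, rfl⟩
  have hV1 : 1 ≤ V := by rw [hV]; exact Real.one_le_rpow hX1 hη0.le
  rw [← hV]
  obtain ⟨I, hI⟩ : ∃ I, I = range (K + 1) ×ˢ (Icc 1 ⌊V⌋₊ ×ˢ Icc (-(⌊V⌋₊ : ℤ)) ⌊V⌋₊) := ⟨_, rfl⟩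
  -- powers of `2`
  have hpow : ∀ k : ℕ, (k : ℝ) ≤ κ * Real.log X → (2 : ℝ) ^ k ≤ (X : ℝ) ^ (κ * Real.log 2) := by
    intro k hk
    rw [← Real.rpow_natCast, Real.rpow_def_of_pos (by norm_num), Real.rpow_def_of_pos hX0]
    apply Real.exp_le_exp.2
    have := mul_le_mul_of_nonneg_left hk hl2.le
    linarith
  have hterm : ∀ i ∈ I, (((Icc 1 X).filter (fun m =>
      ∃ N : ℕ, 1 ≤ N ∧ E N ∧ (N : ℤ) = i.2.1 * ((step q c)^[i.1] m : ℕ) + i.2.2)).card : ℝ) ≤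
      3 * C * (X : ℝ) ^ (β + η) := by
    rintro ⟨k, u, w⟩ hi
    rw [hI, mem_product, mem_product, mem_range, mem_Icc, mem_Icc] at hi
    obtain ⟨hk, ⟨hu1, hu2⟩, hw1, hw2⟩ := hi
    simp only at hk hu1 hu2 hw1 hw2 ⊢
    have hk2 : (k : ℝ) ≤ κ * Real.log X := by
      have : k ≤ ⌊κ * Real.log X⌋₊ := by rw [← hK]; omega
      exact (Nat.le_floor_iff (by positivity)).1 this
    have hu3 : (u : ℝ) ≤ V := (Nat.le_floor_iff (by linarith)).1 hu2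
    have hw3 : |(w : ℝ)| ≤ V := by
      have h4 : ((⌊V⌋₊ : ℕ) : ℝ) ≤ V := Nat.floor_le (by linarith)
      have h5 : |w| ≤ (⌊V⌋₊ : ℤ) := abs_le.2 ⟨hw1, hw2⟩
      have h6 : ((|w| : ℤ) : ℝ) ≤ ((⌊V⌋₊ : ℤ) : ℝ) := by exact_mod_cast h5
      push_cast at h6
      linarith
    have hp2 := hpow k hk2
    have h2k : (0 : ℝ) < 2 ^ k := by positivity
    have hck : ((c * k : ℕ) : ℝ) ≤ (X : ℝ) / 2 ^ k := by
      rw [le_div_iff₀ h2k]
      have h4 : ((c * k : ℕ) : ℝ) ≤ c * κ * Real.log X + 0 := by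
        push_cast
        have := mul_le_mul_of_nonneg_left hk2 (Nat.cast_nonneg (α := ℝ) c)
        linarith
      calc ((c * k : ℕ) : ℝ) * 2 ^ k ≤ (X : ℝ) ^ (1 - κ * Real.log 2) * (X : ℝ) ^ (κ * Real.log 2) := by
            apply mul_le_mul (h4.trans h2) hp2 h2k.le (by positivity)
        _ = X := by
            rw [← Real.rpow_add hX0]
            norm_num
    refine (fixed (c := c) hq hC.le hθ0 hθ1.le hEr X k u w hu1 V hw3 hck).trans ?_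
    rw [show 3 * C * (X : ℝ) ^ (β + η) = C * (2 * (X : ℝ) ^ (β + η) + (X : ℝ) ^ (β + η)) by ring]
    apply mul_le_mul_of_nonneg_left _ hC.le
    have hVθ : V ^ θ ≤ (X : ℝ) ^ η := by
      calc V ^ θ ≤ V ^ (1 : ℝ) := Real.rpow_le_rpow_of_exponent_le hV1 hθ1.le
        _ = V := Real.rpow_one _
        _ = (X : ℝ) ^ η := hV
    apply add_le_add
    · -- main term
      have e1 : 2 * ((u : ℝ) * ((X : ℝ) / 2 ^ k)) = (2 * u) * X / 2 ^ k := by ring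
      rw [e1, Real.div_rpow (by positivity) h2k.le, Real.mul_rpow (by positivity) hX0.le,
        Real.mul_rpow (by norm_num) (Nat.cast_nonneg _)]
      have e2 : (2 : ℝ) ^ θ * (u : ℝ) ^ θ ≤ 2 * (X : ℝ) ^ η := by
        apply mul_le_mul _ _ (by positivity) (by norm_num)
        · calc (2 : ℝ) ^ θ ≤ 2 ^ (1 : ℝ) := Real.rpow_le_rpow_of_exponent_le (by norm_num) hθ1.le
            _ = 2 := Real.rpow_one _
        · exact (Real.rpow_le_rpow (Nat.cast_nonneg _) hu3 hθ0).trans hVθ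
      have e3 : (1 + (q : ℝ) ^ θ) ^ k / ((2 : ℝ) ^ k) ^ θ ≤ (X : ℝ) ^ (κ * lam) := by
        obtain ⟨R, hR⟩ : ∃ R, R = 1 + (q : ℝ) ^ θ := ⟨_, rfl⟩
        have hR0 : 0 < R := by rw [hR]; positivity
        rw [← hR] at hlam ⊢
        have a1 : R ^ k = Real.exp (k * Real.log R) := by rw [Real.exp_nat_mul, Real.exp_log hR0]
        rw [a1, Real.rpow_def_of_pos h2k, Real.log_pow, Real.rpow_def_of_pos hX0, ← Real.exp_sub]
        apply Real.exp_le_exp.2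
        have h5 : 0 ≤ lam := le_trans (by nlinarith) hlam1
        have h6 := mul_le_mul_of_nonneg_left hk2 h5
        rw [hlam] at h6 ⊢
        linarith
      calc 2 ^ θ * (u : ℝ) ^ θ * (X : ℝ) ^ θ / ((2 : ℝ) ^ k) ^ θ * (1 + (q : ℝ) ^ θ) ^ k
          = (2 ^ θ * (u : ℝ) ^ θ) * ((X : ℝ) ^ θ * ((1 + (q : ℝ) ^ θ) ^ k / ((2 : ℝ) ^ k) ^ θ)) := by ring
        _ ≤ (2 * (X : ℝ) ^ η) * ((X : ℝ) ^ θ * (X : ℝ) ^ (κ * lam)) := by
            apply mul_le_mul e2 _ (by positivity) (by positivity)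
            exact mul_le_mul_of_nonneg_left e3 (by positivity)
        _ = 2 * (X : ℝ) ^ (β + η) := by
            rw [hβ, ← Real.rpow_add hX0, mul_assoc, ← Real.rpow_add hX0]
            congr 2
            ring
    · calc (2 : ℝ) ^ k * V ^ θ ≤ (X : ℝ) ^ (κ * Real.log 2) * (X : ℝ) ^ η :=
            mul_le_mul hp2 hVθ (by positivity) (by positivity)
        _ = (X : ℝ) ^ (κ * Real.log 2 + η) := by rw [Real.rpow_add hX0]
        _ ≤ (X : ℝ) ^ (β + η) := Real.rpow_le_rpow_of_exponent_le hX1 (by linarith)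
  have hsub : (Icc 1 X).filter (fun m => ∃ (k u N : ℕ) (w : ℤ), (k : ℝ) ≤ κ * Real.log X ∧ 1 ≤ u ∧
        (u : ℝ) ≤ V ∧ |(w : ℝ)| ≤ V ∧ 1 ≤ N ∧
        (N : ℤ) = u * ((step q c)^[k] m : ℕ) + w ∧ E N) ⊆
      I.biUnion (fun i => (Icc 1 X).filter (fun m =>
        ∃ N : ℕ, 1 ≤ N ∧ E N ∧ (N : ℤ) = i.2.1 * ((step q c)^[i.1] m : ℕ) + i.2.2)) := by
    intro m hm
    rw [mem_filter] at hm
    obtain ⟨hm1, k, u, N, w, h4, h5, h6, h7, h8, h9, h10⟩ := hm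
    rw [mem_biUnion]
    refine ⟨(k, u, w), ?_, ?_⟩
    · rw [hI, mem_product, mem_product, mem_range, mem_Icc, mem_Icc]
      simp only
      have h11 : k ≤ K := by rw [hK]; exact Nat.le_floor h4
      have h12 : |w| ≤ (⌊V⌋₊ : ℤ) := by
        have h13 : ((w.natAbs : ℕ) : ℝ) ≤ V := by
          rw [Nat.cast_natAbs]
          exact_mod_cast h7
        have h14 : w.natAbs ≤ ⌊V⌋₊ := Nat.le_floor h13
        rw [Int.abs_eq_natAbs]
        exact_mod_cast h14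
      exact ⟨by omega, ⟨h5, Nat.le_floor h6⟩, (abs_le.1 h12).1, (abs_le.1 h12).2⟩
    · rw [mem_filter]
      exact ⟨hm1, N, h8, h10, h9⟩
  have hcardI : (I.card : ℝ) ≤ 3 * (κ * Real.log X + 1) * V ^ 2 := by
    rw [hI, card_product, card_product, card_range, Nat.card_Icc, Int.card_Icc]
    have h4 : ((⌊V⌋₊ : ℕ) : ℝ) ≤ V := Nat.floor_le (by linarith)
    have h5 : ((((⌊V⌋₊ : ℤ) + 1 - -(⌊V⌋₊ : ℤ)).toNat : ℕ) : ℝ) ≤ 3 * V := by
      have e : ((⌊V⌋₊ : ℤ) + 1 - -(⌊V⌋₊ : ℤ)).toNat = 2 * ⌊V⌋₊ + 1 := by omega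
      rw [e]
      push_cast
      linarith
    have h6 : ((K : ℕ) : ℝ) ≤ κ * Real.log X := by rw [hK]; exact Nat.floor_le (by positivity)
    have e2 : ⌊V⌋₊ + 1 - 1 = ⌊V⌋₊ := by omega
    rw [e2]
    push_cast
    push_cast at h5
    calc ((K : ℝ) + 1) * ((⌊V⌋₊ : ℝ) * (((⌊V⌋₊ : ℤ) + 1 - -(⌊V⌋₊ : ℤ)).toNat : ℝ))
        ≤ (κ * Real.log X + 1) * (V * (3 * V)) := by
          apply mul_le_mul (by linarith) _ (by positivity) (by positivity)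
          apply mul_le_mul h4 _ (by positivity) (by positivity)
          exact_mod_cast h5
      _ = _ := by ring
  calc _ ≤ ((I.biUnion (fun i => (Icc 1 X).filter (fun m =>
        ∃ N : ℕ, 1 ≤ N ∧ E N ∧ (N : ℤ) = i.2.1 * ((step q c)^[i.1] m : ℕ) + i.2.2))).card : ℝ) := by
          exact_mod_cast card_le_card hsub
    _ ≤ ((∑ i ∈ I, ((Icc 1 X).filter (fun m =>
        ∃ N : ℕ, 1 ≤ N ∧ E N ∧ (N : ℤ) = i.2.1 * ((step q c)^[i.1] m : ℕ) + i.2.2)).card : ℕ) : ℝ) := by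
          exact_mod_cast card_biUnion_le
    _ ≤ ∑ i ∈ I, 3 * C * (X : ℝ) ^ (β + η) := by
          rw [Nat.cast_sum]
          exact sum_le_sum hterm
    _ = I.card * (3 * C * (X : ℝ) ^ (β + η)) := by rw [sum_const, nsmul_eq_mul]
    _ ≤ (3 * (κ * Real.log X + 1) * V ^ 2) * (3 * C * (X : ℝ) ^ (β + η)) :=
          mul_le_mul_of_nonneg_right hcardI (by positivity)
    _ = (9 * C * κ * Real.log X + 9 * C) * ((X : ℝ) ^ η * (X : ℝ) ^ η * (X : ℝ) ^ (β + η)) := by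
          rw [hV]; ring
    _ ≤ (X : ℝ) ^ η * ((X : ℝ) ^ η * (X : ℝ) ^ η * (X : ℝ) ^ (β + η)) :=
          mul_le_mul_of_nonneg_right h1 (by positivity)
    _ = (X : ℝ) ^ (β + ε) := by
          rw [← Real.rpow_add hX0, ← Real.rpow_add hX0, ← Real.rpow_add hX0]
          congr 1
          rw [hη]; ring

end Pool.Agent.Run7.h496.PS
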