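import Pool.Agent.Run7.h496.PS.Traj
import Pool.Agent.Y883.T6.One6

/-! Trajectories of the `q x + c` maps and multiples of the members of a very sparse set. -/

set_option autoImplicit false

namespace Pool.Agent.Run7.h496.PS

open Finset
open _root_.Run7.h469.CT (step odds iter_add odds_mod coprime_pow class_le iter_pos)

open Classical in
/-- `D` has at most `X ^ (1 / 4)` elements up to `X`, and at most `X ^ ε` for large `X`. -/
structure Thin (D : Set ℕ) : Prop where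
  quarter : ∀ X : ℕ, 1 ≤ X → (((Icc 1 X).filter (fun e => e ∈ D)).card : ℝ) ≤ (X : ℝ) ^ (1 / 4 : ℝ)
  small : ∀ ε : ℝ, 0 < ε → ∃ X₀ : ℕ, ∀ X : ℕ, X₀ ≤ X → (((Icc 1 X).filter (fun e => e ∈ D)).card : ℝ) ≤ (X : ℝ) ^ ε

open Classical in
/-- few points have a value with a large divisor in a thin set -/
theorem div_count {D : Set ℕ} (hD : Thin D) {α ι : Type*} (Ω : Finset α) (I : Finset ι) (s : ι → α → ℕ)
    (P W R G : ℝ) (H : ℕ) (hP : 0 ≤ P) (hW : 0 ≤ W) (hR : 0 ≤ R) (hG : 0 < G)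
    (h1 : ∀ i ∈ I, ∀ e : ℕ, 1 ≤ e → ((Ω.filter (fun ω => e ∣ s i ω)).card : ℝ) ≤ P * (W / e) + R)
    (h2 : ∀ i ∈ I, ∀ ω ∈ Ω, 1 ≤ s i ω ∧ s i ω ≤ H) :
    ((Ω.filter (fun ω => ∃ i ∈ I, ∃ e ∈ D, G < (e : ℝ) ∧ e ∣ s i ω)).card : ℝ) ≤
      I.card * (P * (13 * (W / G ^ (1 / 2 : ℝ))) + R * (((Icc 1 H).filter (fun e => e ∈ D)).card : ℝ)) := by
  obtain ⟨S, hS⟩ : ∃ S, S = (Icc 1 H).filter (fun e => e ∈ D ∧ G < (e : ℝ)) := ⟨_, rfl⟩
  have hSD : S ⊆ (Icc 1 H).filter (fun e => e ∈ D) := by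
    intro e he
    rw [hS, mem_filter] at he
    rw [mem_filter]
    exact ⟨he.1, he.2.1⟩
  have hS' : ∀ e ∈ S, e ∈ D ∧ 1 ≤ e := by
    intro e he
    rw [hS, mem_filter, mem_Icc] at he
    exact ⟨he.2.1, he.1.1⟩
  have hsub : Ω.filter (fun ω => ∃ i ∈ I, ∃ e ∈ D, G < (e : ℝ) ∧ e ∣ s i ω) ⊆
      (I ×ˢ S).biUnion (fun z => Ω.filter (fun ω => z.2 ∣ s z.1 ω)) := by
    intro ω h
    rw [mem_filter] at h
    obtain ⟨h3, i, h4, e, h5, h6, h7⟩ := h
    obtain ⟨h8, h9⟩ := h2 i h4 ω h3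
    rw [mem_biUnion]
    refine ⟨(i, e), ?_, ?_⟩
    · rw [mem_product, hS, mem_filter, mem_Icc]
      exact ⟨h4, ⟨Nat.pos_of_dvd_of_pos h7 h8, (Nat.le_of_dvd h8 h7).trans h9⟩, h5, h6⟩
    · rw [mem_filter]
      exact ⟨h3, h7⟩
  have h3 : ((Ω.filter (fun ω => ∃ i ∈ I, ∃ e ∈ D, G < (e : ℝ) ∧ e ∣ s i ω)).card : ℝ) ≤
      ∑ z ∈ I ×ˢ S, ((Ω.filter (fun ω => z.2 ∣ s z.1 ω)).card : ℝ) := by
    exact_mod_cast (card_le_card hsub).trans card_biUnion_le
  have hGp : (0 : ℝ) < G ^ (1 / 2 : ℝ) := Real.rpow_pos_of_pos hG _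
  refine h3.trans ?_
  rw [sum_product]
  have h4 : ∀ i ∈ I, ∑ e ∈ S, ((Ω.filter (fun ω => e ∣ s i ω)).card : ℝ) ≤
      P * (13 * (W / G ^ (1 / 2 : ℝ))) + R * (((Icc 1 H).filter (fun e => e ∈ D)).card : ℝ) := by
    intro i hi
    have hRS : R * (S.card : ℝ) ≤ R * (((Icc 1 H).filter (fun e => e ∈ D)).card : ℝ) :=
      mul_le_mul_of_nonneg_left (by exact_mod_cast card_le_card hSD) hR
    calc ∑ e ∈ S, ((Ω.filter (fun ω => e ∣ s i ω)).card : ℝ)
        ≤ ∑ e ∈ S, (P * (W / G ^ (1 / 2 : ℝ)) * (e : ℝ) ^ (-(1 / 2) : ℝ) + R) := by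
          apply sum_le_sum
          intro e he
          have he1 := (hS' e he).2
          have he0 : (0 : ℝ) < e := by exact_mod_cast he1
          have heG : G < (e : ℝ) := by
            rw [hS, mem_filter] at he
            exact he.2.2
          have h5 : G ^ (1 / 2 : ℝ) ≤ (e : ℝ) ^ (1 / 2 : ℝ) := Real.rpow_le_rpow hG.le heG.le (by norm_num)
          have h6 : (e : ℝ) = (e : ℝ) ^ (1 / 2 : ℝ) * (e : ℝ) ^ (1 / 2 : ℝ) := by
            rw [← Real.rpow_add he0]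
            norm_num
          have h8 : (0 : ℝ) < (e : ℝ) ^ (1 / 2 : ℝ) := Real.rpow_pos_of_pos he0 _
          have h9 : W / e ≤ (W / G ^ (1 / 2 : ℝ)) * (e : ℝ) ^ (-(1 / 2) : ℝ) := by
            calc W / e = (W / (e : ℝ) ^ (1 / 2 : ℝ)) * (e : ℝ) ^ (-(1 / 2) : ℝ) := by
                  rw [Real.rpow_neg he0.le]
                  nth_rewrite 1 [h6]
                  field_simp
              _ ≤ (W / G ^ (1 / 2 : ℝ)) * (e : ℝ) ^ (-(1 / 2) : ℝ) := by
                  apply mul_le_mul_of_nonneg_right _ (by positivity)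
                  exact div_le_div_of_nonneg_left hW hGp h5
          have h10 := mul_le_mul_of_nonneg_left h9 hP
          have h11 := h1 i hi e he1
          rw [← mul_assoc] at h10
          linarith
      _ = P * (W / G ^ (1 / 2 : ℝ)) * ∑ e ∈ S, (e : ℝ) ^ (-(1 / 2) : ℝ) + R * S.card := by
          rw [sum_add_distrib, ← mul_sum, sum_const, nsmul_eq_mul, mul_comm R]
      _ ≤ P * (W / G ^ (1 / 2 : ℝ)) * 13 + R * S.card := by
          have h12 := mul_le_mul_of_nonneg_left (Pool.Agent.Y883.T6.sum_sparse hD.quarter S hS')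
            (show 0 ≤ P * (W / G ^ (1 / 2 : ℝ)) by positivity)
          linarith
      _ ≤ P * (13 * (W / G ^ (1 / 2 : ℝ))) + R * (((Icc 1 H).filter (fun e => e ∈ D)).card : ℝ) := by
          linarith
  refine (sum_le_sum h4).trans ?_
  rw [sum_const, nsmul_eq_mul]

variable {q c : ℕ}

/-- the members of the trajectories of a class which are multiples of `e` -/
theorem div_class (hq : Odd q) (hc : Odd c) (hcq : Nat.Coprime c q) (X k e r : ℕ) :
    ((Icc 1 X).filter (fun m => m % 2 ^ k = r ∧ e ∣ (step q c)^[k] m)).card ≤ X / (2 ^ k * e) + 1 := by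
  rcases ((Icc 1 X).filter (fun m => m % 2 ^ k = r ∧ e ∣ (step q c)^[k] m)).eq_empty_or_nonempty with h | h
  · rw [h]; simp
  obtain ⟨m₀, hm₀⟩ := h
  refine le_trans (card_le_card ?_) (class_le X (2 ^ k * e) (m₀ % (2 ^ k * e)))
  intro m hm
  rw [mem_filter] at hm hm₀ ⊢
  obtain ⟨h1, h2, h3⟩ := hm
  obtain ⟨-, h2', h3'⟩ := hm₀
  refine ⟨h1, ?_⟩
  have e1 : m = 2 ^ k * (m / 2 ^ k) + r := by rw [← h2, Nat.div_add_mod]
  have e1' : m₀ = 2 ^ k * (m₀ / 2 ^ k) + r := by rw [← h2', Nat.div_add_mod]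
  have e2 : (step q c)^[k] m = q ^ (odds q c k r) * (m / 2 ^ k) + (step q c)^[k] r := by
    conv_lhs => rw [e1]
    rw [iter_add]
  have e2' : (step q c)^[k] m₀ = q ^ (odds q c k r) * (m₀ / 2 ^ k) + (step q c)^[k] r := by
    conv_lhs => rw [e1']
    rw [iter_add]
  have hco : Nat.Coprime e (q ^ (odds q c k r)) := by
    have h4 := coprime_pow hq hcq hc k m₀
    rw [odds_mod q c k m₀, h2'] at h4
    exact Nat.Coprime.coprime_dvd_left h3' h4
  have h5 : q ^ (odds q c k r) * (m / 2 ^ k) ≡ q ^ (odds q c k r) * (m₀ / 2 ^ k) [MOD e] := by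
    have h6 : (step q c)^[k] m ≡ (step q c)^[k] m₀ [MOD e] :=
      ((Nat.modEq_zero_iff_dvd.2 h3).trans (Nat.modEq_zero_iff_dvd.2 h3').symm)
    rw [e2, e2'] at h6
    exact Nat.ModEq.add_right_cancel' _ h6
  have h7 : m / 2 ^ k ≡ m₀ / 2 ^ k [MOD e] := Nat.ModEq.cancel_left_of_coprime hco h5
  have h8 : 2 ^ k * (m / 2 ^ k) + r ≡ 2 ^ k * (m₀ / 2 ^ k) + r [MOD 2 ^ k * e] :=
    (Nat.ModEq.mul_left' (2 ^ k) h7).add_right r
  rw [← e1, ← e1'] at h8
  exact h8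

/-- the multiples of `e` among the numbers `u T^k(m)` -/
theorem div_all (hq : Odd q) (hc : Odd c) (hcq : Nat.Coprime c q) (X k e u : ℕ) (he : 1 ≤ e) (hu : 1 ≤ u) :
    (((Icc 1 X).filter (fun m => e ∣ u * (step q c)^[k] m)).card : ℝ) ≤ u * ((X : ℝ) / e) + 2 ^ k := by
  obtain ⟨g, hg⟩ : ∃ g, g = Nat.gcd e u := ⟨_, rfl⟩
  have hg0 : 0 < g := by rw [hg]; exact Nat.gcd_pos_of_pos_left _ he
  obtain ⟨e', he'⟩ : ∃ e', e = g * e' := by
    obtain ⟨e', h⟩ : g ∣ e := by rw [hg]; exact Nat.gcd_dvd_left _ _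
    exact ⟨e', h⟩
  have he'0 : 0 < e' := Nat.pos_of_ne_zero (fun h => by rw [h] at he'; omega)
  have hgu : g ≤ u := by rw [hg]; exact Nat.le_of_dvd hu (Nat.gcd_dvd_right _ _)
  have hdiv : ∀ n : ℕ, e ∣ u * n → e' ∣ n := by
    intro n hn
    have h1 : e / g ∣ u / g * n := by
      obtain ⟨u', hu'⟩ : g ∣ u := by rw [hg]; exact Nat.gcd_dvd_right _ _
      rw [he', hu', Nat.mul_div_cancel_left _ hg0, Nat.mul_div_cancel_left _ hg0]
      rw [he', hu', mul_assoc] at hn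
      exact Nat.dvd_of_mul_dvd_mul_left hg0 hn
    have h2 : Nat.Coprime (e / g) (u / g) := by
      rw [hg]
      exact Nat.coprime_div_gcd_div_gcd (by rw [← hg]; exact hg0)
    have h3 := h2.dvd_of_dvd_mul_left h1
    rwa [he', Nat.mul_div_cancel_left _ hg0] at h3
  have hmap : ∀ m ∈ (Icc 1 X).filter (fun m => e ∣ u * (step q c)^[k] m), m % 2 ^ k ∈ range (2 ^ k) :=
    fun m _ => mem_range.2 (Nat.mod_lt _ (by positivity))
  rw [card_eq_sum_card_fiberwise hmap, Nat.cast_sum]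
  have hterm : ∀ r ∈ range (2 ^ k), ((((Icc 1 X).filter (fun m => e ∣ u * (step q c)^[k] m)).filter
        (fun m => m % 2 ^ k = r)).card : ℝ) ≤ (X : ℝ) / (2 ^ k * e') + 1 := by
    intro r _
    have h1 : (((Icc 1 X).filter (fun m => e ∣ u * (step q c)^[k] m)).filter
        (fun m => m % 2 ^ k = r)).card ≤ X / (2 ^ k * e') + 1 := by
      refine le_trans (card_le_card ?_) (div_class hq hc hcq X k e' r)
      intro m hm
      rw [mem_filter, mem_filter] at hm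
      rw [mem_filter]
      exact ⟨hm.1.1, hm.2, hdiv _ hm.1.2⟩
    have h2 : ((X / (2 ^ k * e') + 1 : ℕ) : ℝ) ≤ (X : ℝ) / (2 ^ k * e') + 1 := by
      push_cast
      have := Nat.cast_div_le (α := ℝ) (m := X) (n := 2 ^ k * e')
      push_cast at this
      linarith
    exact (by exact_mod_cast h1 : _ ≤ ((X / (2 ^ k * e') + 1 : ℕ) : ℝ)).trans h2
  refine (sum_le_sum hterm).trans ?_
  rw [sum_const, card_range, nsmul_eq_mul]
  push_cast
  have h2k : (0 : ℝ) < 2 ^ k := by positivity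
  have he'r : (0 : ℝ) < e' := by exact_mod_cast he'0
  have hgr : (0 : ℝ) < g := by exact_mod_cast hg0
  have h3 : (2 : ℝ) ^ k * ((X : ℝ) / (2 ^ k * e') + 1) = X / e' + 2 ^ k := by
    field_simp
  rw [h3]
  have h4 : (X : ℝ) / e' = g * (X / e) := by
    rw [he']
    push_cast
    field_simp
  rw [h4]
  have h5 : (g : ℝ) * (X / e) ≤ u * (X / e) :=
    mul_le_mul_of_nonneg_right (by exact_mod_cast hgu) (by positivity)
  linarith

end Pool.Agent.Run7.h496.PS
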